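import Mathlib
import Pool.Agent.TH812.GV5.Surface

/-!
Vojta's inequality for curves on coverings of very general complete intersection surfaces that are
branched over very general hypersurface sections.
-/

set_option autoImplicit false

namespace Pool.Agent.Results.MP_79ab39_ag.CompleteIntersectionCovers

open FF MvPolynomial Pool.Agent.W603.LV Pool.Agent.W603.PV Pool.Agent.W603.CZ

/-- Let `k` be an algebraically closed field of characteristic zero and `F0` a subfield. Let `V` be
the projective space of dimension `n` or a quadric in it: `V` is defined in the projective space of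
dimension `n = m + r` by `r` forms `G j` over `F0` of degrees `e j`, at most one of them of degree
two and the others of degree one. Let `H a`, `a ∈ α`, be finitely many forms over `k` of degrees
`d a` which are very general: the ratios of the coefficients of each form to one nonzero coefficient
of it are algebraically independent over `F0`, for all forms together. Let `E` be a subset of `α`
with `m - 2` elements such that the gradients of the forms `G j` are linearly independent at all
points of the surface `X = V ∩ {H a = 0, a ∈ E}` (this holds when `V` is smooth). Let `q ≥ 1` be a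
bound for the degrees of the equations of `X`. For `b ∉ E` let `D b` be the curve `H b = 0` on `X`
and `ν b ≥ 1` an integer. Let `κX = Σ e j + Σ_{a ∈ E} d a - n - 1` and
`κ = κX + Σ_{b ∉ E} d b (1 - 1 / ν b)`, so `K_X = κX h` and `K_X + Σ (1 - 1 / ν b) D b = κ h` for the
class `h` of a hyperplane section.

Let `L` be a function field of one variable over `k`, of genus `g`, and let `x` be a nonconstant
point of `X` over `L`, of degree `h`, that is not on the curves `D b`: a nonconstant morphism from
the smooth projective curve of `L` to `X`, whose image is not one of the branch curves. Suppose that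
at each place its contact order with each `D b` is zero or at least `ν b`. This holds when the
morphism lifts to the covering `S` of `X` given by `y_b ^ ν b = H b`, `b ∉ E`; the canonical class
of `S` is then `κ h`. Then `(q (κ - 1) + 1) h ≤ q (2 g - 2)`, and if `κ ≥ 2 - 2 / q`, Vojta's
inequality `κ h ≤ 4 (g - 1)` holds; or else `κX < 0` and the point `x` lies on a line over `L` that
is contained in `X`. -/
theorem result {F0 k : Type} [Field F0] [Field k] [Algebra F0 k] [IsAlgClosed k]
    [CharZero k] {n m : ℕ} {ι : Type} [Fintype ι] (hn : n = m + Fintype.card ι)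
    (G : ι → MvPolynomial (Fin (n + 1)) F0) (e : ι → ℕ) (hG : ∀ j, (G j).IsHomogeneous (e j))
    (he : ∀ j, 1 ≤ e j) (hV : ∑ j, (e j - 1) ≤ 1)
    {α : Type} [Fintype α] [DecidableEq α] (H : α → MvPolynomial (Fin (n + 1)) k) (d : α → ℕ)
    (hH : ∀ a, (H a).IsHomogeneous (d a)) (I0 : α → Fin (n + 1) →₀ ℕ)
    (hI0 : ∀ a, (H a).coeff (I0 a) ≠ 0)
    (hgen : AlgebraicIndependent F0 fun p : {p : α × (Fin (n + 1) →₀ ℕ) //
      p.2.degree = d p.1 ∧ p.2 ≠ I0 p.1} => (H p.1.1).coeff p.1.2 / (H p.1.1).coeff (I0 p.1.1))
    (E : Finset α)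
    (hsm : ∀ y : Fin (n + 1) → k, y ≠ 0 → (∀ j, aeval y (G j) = 0) →
      (∀ a ∈ E, eval y (H a) = 0) →
      LinearIndependent k fun (j : ι) (l : Fin (n + 1)) => aeval y (pderiv l (G j)))
    (hdim : m = E.card + 2) (ν : α → ℕ) (hν : ∀ b ∉ E, 1 ≤ ν b)
    {q : ℕ} (hq : 1 ≤ q) (heq : ∀ j, e j ≤ q) (hdq : ∀ a ∈ E, d a ≤ q) {κX κ : ℚ}
    (hκX : κX = ∑ j, (e j : ℚ) + ∑ a ∈ E, (d a : ℚ) - (n + 1))
    (hκ : κ = κX + ∑ b ∈ Eᶜ, (d b : ℚ) * (1 - 1 / ν b))
    (L : Type) [Field L] [Algebra k L] [IsFF k L] (x : Fin (n + 1) → L)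
    (hnc : ∀ (c : L) (y : Fin (n + 1) → k), x ≠ c • fun l => algebraMap k L (y l))
    (hxG : ∀ j, aeval x (map (algebraMap F0 k) (G j)) = 0)
    (hxE : ∀ a, aeval x (H a) = 0 ↔ a ∈ E)
    (hc : ∀ b ∉ E, ∀ P : Place k L, d b * pord P x < P.ord (aeval x (H b)) →
      d b * pord P x + ν b ≤ P.ord (aeval x (H b))) :
    ((q * (κ - 1) + 1) * pht k x ≤ q * canDeg k L ∧
      (2 - 2 / q ≤ κ → κ * pht k x ≤ 2 * canDeg k L)) ∨
    (κX < 0 ∧ ∃ y : Fin (n + 1) → L, (∀ c : L, y ≠ c • x) ∧
        (∀ j, ∀ u v : L, aeval (u • x + v • y) (map (algebraMap F0 k) (G j)) = 0) ∧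
        ∀ a ∈ E, ∀ u v : L, aeval (u • x + v • y) (H a) = 0) :=
  Pool.Agent.TH812.GV5.contact_surface hn G e hG he hV H d hH I0 hI0 hgen E hsm hdim ν hν hq heq
    hdq hκX hκ L x hnc hxG hxE hc

end Pool.Agent.Results.MP_79ab39_ag.CompleteIntersectionCovers
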