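import Pool.Agent.TH145.GE.CurveLin

/-!
MP_79ab39_ag, Q1: Vojta's inequality for the canonical degrees of the curves on generic complete
intersection surfaces in an arbitrary projective variety.

Let `K` be an algebraically closed field of characteristic `0`, and let `k` be a field contained in
`K`, with algebraic closure `k'` in `K`. Let `V` be a closed subset of projective space of dimension
`n`, defined over `k'`, of dimension at most `m`. For `a` in a set `A` with `m - 2` elements, let
`F_a` be a generic member of a linear system over `k'` of forms of degree `d_a`, spanned by the forms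
`P_{a,j}`: the ratios of the coefficients `t_{a,j}` of `F_a` to one of them are, for all `a`
together, algebraically independent over `k`. Let `Z` be a set of indices `c` such that each of the
linear systems contains the monomials `x_c ^ (d_a - e) x_i ^ e` for all `i` and `e`.

Let `X` be the surface `V ∩ {F_a = 0 for all a}`, and let `f` be a non-constant morphism from
a smooth projective curve of genus `g` over `K` to `X`, whose image is not contained in the linear
subspace `x_c = 0` (`c` in `Z`), for instance the normalisation of a curve `C` in `X`. Then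
`(∑ d_a - m - 2) deg f ≤ 2 g - 2`. Consequently, if `r` is an integer, `N` is a positive integer and
`m + 2 + N (r + m + 2) ≤ ∑ d_a`, then `(r + ∑ d_a) deg f ≤ (2 + 2 / N) (g - 1)`.

If `V` and `X` are smooth and `K_V . C ≤ r deg C`, then `K_X . C ≤ (r + ∑ d_a) deg C` by adjunction,
so that the last inequality is Vojta's inequality `K_X . C ≤ (4 + ε) (g - 1) + B`, with the factor
`2 + 2 / N ≤ 4`.

The curve is given by its function field `L`, of transcendence degree one over `K`; `Place K L` is
the set of its points (the normalised discrete valuations of `L` trivial on `K`), and the morphism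
by its homogeneous coordinates `x`. For a point `P`, `pord P x` is the minimum of the orders at `P`
of the nonzero coordinates; `pht K x` is minus the sum of these numbers, the degree of `f`. The
number `canDeg K L` is `2 g - 2`: it is minus the sum over the points `P` of the orders of `δ (t_P)`,
where `t_P` is a uniformizer at `P`, for any nonzero derivation `δ` of `L` over `K`.
-/

set_option autoImplicit false

namespace Pool.Agent.Results.MP_79ab39_ag.GenericSurfaces

open MvPolynomial FF Pool.Agent.W603.LV Pool.Agent.W603.PV Pool.Agent.TH145.MG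

theorem result {k K : Type} [Field k] [Field K] [IsAlgClosed K] [CharZero K] [Algebra k K]
    {n m : ℕ}
    -- a closed subset of projective space, of dimension at most `m`
    (V : Set (MvPolynomial (Fin (n + 1)) (algebraicClosure k K)))
    (hVh : ∀ f ∈ V, ∃ e, f.IsHomogeneous e) (hV : DimLE (algebraicClosure k K) V m)
    -- linear systems of forms of degrees `d a`
    {A : Type} [Fintype A] (hA : Fintype.card A + 2 = m) (d : A → ℕ)
    {J : A → Type} [∀ a, Fintype (J a)]
    (P : ∀ a, J a → MvPolynomial (Fin (n + 1)) (algebraicClosure k K))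
    (hP : ∀ a j, (P a j).IsHomogeneous (d a))
    -- the coefficients; their ratios are algebraically independent over `k`
    (t : ∀ a, J a → K) (j0 : ∀ a, J a) (h0 : ∀ a, t a (j0 a) ≠ 0)
    (hgen : AlgebraicIndependent k fun p : (a : A) × {j : J a // j ≠ j0 a} =>
      t p.1 p.2.1 / t p.1 (j0 p.1))
    -- the forms
    (F : A → MvPolynomial (Fin (n + 1)) K)
    (hF : ∀ a, F a = ∑ j, MvPolynomial.C (t a j) * map (algebraMap (algebraicClosure k K) K) (P a j))
    -- the linear systems contain monomials in two variables
    (Z : Set (Fin (n + 1)))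
    (hZ : ∀ c ∈ Z, ∀ (a : A) (i : Fin (n + 1)) (e : ℕ), e ≤ d a →
      ∃ j, P a j = X c ^ (d a - e) * X i ^ e)
    -- a smooth projective curve, given by its function field
    {L : Type} [Field L] [Algebra K L] [IsFF K L]
    -- a non-constant morphism to the surface, given by homogeneous coordinates
    (x : Fin (n + 1) → L) (hxZ : ∃ c ∈ Z, x c ≠ 0)
    (hx : ∃ i j, x j ≠ 0 ∧ x i / x j ∉ Set.range (algebraMap K L))
    (hxV : ∀ f ∈ V, aeval x (map (algebraMap (algebraicClosure k K) K) f) = 0)
    (hxF : ∀ a, aeval x (F a) = 0) :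
    (∀ δ : Derivation K L L, δ ≠ 0 → canDeg K L = - ∑ᶠ Q : Place K L, Q.ord (δ Q.surj.choose)) ∧
    (((∑ a, d a : ℕ) : ℤ) - m - 2) * pht K x ≤ canDeg K L ∧
    ∀ (r : ℤ) (N : ℕ), 0 < N → (m : ℤ) + 2 + N * (r + m + 2) ≤ (∑ a, d a : ℕ) →
      N * ((r + (∑ a, d a : ℕ)) * pht K x) ≤ (N + 1) * canDeg K L := by
  classical
  obtain ⟨c, hcZ, hc⟩ := hxZ
  have hind : AlgebraicIndependent (algebraicClosure k K)
      fun p : (a : A) × {j : J a // j ≠ j0 a} => t p.1 p.2.1 / t p.1 (j0 p.1) :=
    hgen.algebraicClosure
  have h1 := Pool.Agent.TH145.GE.curve_lin V hVh hV P hP t j0 h0 hind c (fun a I hI => by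
    obtain ⟨i, e, he, rfl⟩ := hI
    obtain ⟨j, hj⟩ := hZ c hcZ a i e he
    refine ⟨j, ?_⟩
    rw [hj, Pool.Agent.TH145.GD.sM, X_pow_eq_monomial, X_pow_eq_monomial, monomial_mul, one_mul])
    hF Finset.univ x hc hx hxV (fun a _ => hxF a) (fun a ha => absurd (Finset.mem_univ a) ha)
  have h2 : {Q : Place K L | ∃ a, a ∉ (Finset.univ : Finset A) ∧
      d a * pord Q x < Q.ord (aeval x (F a))} = ∅ := by
    ext Q
    simp
  rw [h2, Set.ncard_empty, Nat.cast_zero, add_zero, Finset.card_univ] at h1
  have hpht : 0 ≤ pht K x :=
    (hgt_nonneg _).trans (Pool.Agent.W603.CX.hgt_le_pht (k := K) x hc hc)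
  obtain ⟨s, hs⟩ : ∃ s : ℤ, s = ((∑ a, d a : ℕ) : ℤ) := ⟨_, rfl⟩
  rw [← hs] at h1 ⊢
  have hA' : (Fintype.card A : ℤ) + 2 = m := by exact_mod_cast hA
  have h3 : (s - m - 2) * pht K x ≤ canDeg K L := by
    have h4 : s + Fintype.card A - 2 * m = s - m - 2 := by linarith
    rw [h4] at h1
    exact h1
  refine ⟨fun δ hδ => canDeg_eq hδ, h3, fun r N hN hr => ?_⟩
  have hN' : (0 : ℤ) ≤ N + 1 := by positivity
  have h5 := mul_le_mul_of_nonneg_left h3 hN'
  refine le_trans ?_ h5
  have h6 : (N : ℤ) * (r + s) ≤ (N + 1) * (s - m - 2) := by linarith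
  have h7 := mul_le_mul_of_nonneg_right h6 hpht
  linarith

end Pool.Agent.Results.MP_79ab39_ag.GenericSurfaces
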