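import Pool.Agent.TH875.Vg.GfG

set_option autoImplicit false

/-!
# Vojta's inequality for coverings ramified over very general divisors

`k` is an algebraically closed field of characteristic zero. Curves with function field `L` (a
function field of one variable over `k`) on a projective scheme are given by `L`-rational points:
a point of a projective space over `L` is a morphism from the smooth projective curve with function
field `L` to this space, and a curve `C` is given by the point over `L = k(C)` that corresponds to
the normalisation of `C`. `X ⊆ ℙ^n` is an arbitrary projective variety, for instance a surface.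
-/

namespace Pool.Agent.Results.MP_79ab39_ag.VeryGeneralCovers

open FF MvPolynomial

section

variable (k : Type) {L : Type} [Field k] [Field L] [Algebra k L]

/-- The least order at the place `P` of the coordinates of a point of a projective space. -/
noncomputable def minOrd {ι : Type} (P : Place k L) (x : ι → L) : ℤ :=
  ⨅ j : {j // x j ≠ 0}, P.ord (x j)

/-- The height of the point with homogeneous coordinates `x`: minus the sum over the places of `L`
of the least order of the coordinates, that is, the degree of the pull-back of `O(1)` to the curve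
with function field `L`. -/
noncomputable def height {ι : Type} (x : ι → L) : ℤ := - ∑ᶠ P : Place k L, minOrd k P x

/-- The height of the linear space spanned by the linearly independent vectors `u 0, …, u r`: the
height of the point whose homogeneous coordinates are the Plücker coordinates of the space, the
minors `det (u i (σ j))`. It does not depend on the basis. -/
noncomputable def spaceHeight {ι : Type} {r : ℕ} (u : Fin (r + 1) → ι → L) : ℤ :=
  height k fun σ : Fin (r + 1) → ι => (Matrix.of fun i j => u i (σ j)).det

variable (L) in
open Classical in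
/-- `2 g - 2`, where `g` is the genus of the curve with function field `L`: minus the degree of the
divisor of a nonzero rational vector field `D` (a derivation of `L` over `k`), whose order at the
place `P` is the order of `D t`, where `t` is an element of order `1` at `P`. It does not depend on
the choice of `D` and of the elements `t`. -/
noncomputable def canonicalDegree : ℤ :=
  if h : ∃ D : Derivation k L L, D ≠ 0 then - ∑ᶠ P : Place k L, P.ord (h.choose P.surj.choose)
  else 0

/-- The point `x` of the projective space does not come from a point over `k`: it gives a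
nonconstant morphism from the curve with function field `L` to the projective space. -/
def Nonconstant {ι : Type} (x : ι → L) : Prop :=
  ∃ a b, x b ≠ 0 ∧ Transcendental k (x a / x b)

variable {k}

/-- The point `x` has contact order `0` or at least `e i` with each of the hypersurfaces `g i = 0`
(of degree `d i`) that do not contain it, at every place: it is an orbifold curve for the pair
`(ℙ^n, ∑ i, (1 - 1 / e i) {g i = 0})`. -/
def HighContact {n q : ℕ} (d e : Fin q → ℕ) (g : Fin q → MvPolynomial (Fin (n + 1)) k)
    (x : Fin (n + 1) → L) : Prop :=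
  ∀ P : Place k L, ∀ i, aeval x (g i) ≠ 0 → d i * minOrd k P x < P.ord (aeval x (g i)) →
    d i * minOrd k P x + e i ≤ P.ord (aeval x (g i))

/-- `u` is a basis of the tangent space at the point `z` of the cone over the projective scheme
defined by the homogeneous ideal `J`, a space of dimension `m + 1`. If this scheme `S` is smooth of
dimension `m` at all points of the curve given by `z`, then the degree of the canonical divisor
`K_S` on this curve is `spaceHeight u - (m + 1) * height z`. -/
def IsTangentBasis {ι : Type} [Fintype ι] {m : ℕ} (J : Ideal (MvPolynomial ι k)) (z : ι → L)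
    (u : Fin (m + 1) → ι → L) : Prop :=
  LinearIndependent L u ∧ ∀ v, v ∈ Submodule.span L (Set.range u) ↔
    ∀ f ∈ J, ∑ j, aeval z (pderiv j f) * v j = 0

end

/-- The height of the tangent space of dimension `m + 1` at a nonconstant point of the scheme `X`
defined by `I` is at most `κ` times the height of the point: `(κ - m - 1) H - K_X`, where `H` is a
hyperplane section, has degree `≥ 0` on every curve on `X` (if `X` is smooth of dimension `m`). -/
def CanonicalBound {k : Type} [Field k] {n : ℕ} (I : Ideal (MvPolynomial (Fin (n + 1)) k))
    (m : ℕ) (κ : ℚ) : Prop :=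
  ∀ (L : Type) [Field L] [Algebra k L] [IsFF k L] (x : Fin (n + 1) → L),
    Nonconstant k x → (∀ f ∈ I, aeval x f = 0) →
    ∀ u : Fin (m + 1) → Fin (n + 1) → L, IsTangentBasis I x u → spaceHeight k u ≤ κ * height k x

/-- The factor of the inequality. For surfaces (`m = 2`) it is
`1 + max (1 / (δ - 4)) ((κ - 1) / (δ - 2))`, which is at most `2` if `δ ≥ 5` and `δ ≥ κ + 1`. -/
def factor (m : ℕ) (δ κ : ℚ) : ℚ :=
  1 + max ((m - 1) / (δ - 2 * m)) ((κ + m - 3) / (δ - 2 * m + 2))

/-- The homogeneous ideal of the subscheme of `ℙ^(n + q)`, with the coordinates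
`x 0, …, x n, y 0, …, y (q - 1)`, defined by the equations `f (x) = 0`, `f ∈ I`, and
`y i ^ e i = g i (x)`: a Kummer covering of the scheme defined by `I`. -/
noncomputable def coverIdeal {k : Type} [Field k] {n q : ℕ} (I : Ideal (MvPolynomial (Fin (n + 1)) k))
    (e : Fin q → ℕ) (g : Fin q → MvPolynomial (Fin (n + 1)) k) :
    Ideal (MvPolynomial (Fin (n + 1) ⊕ Fin q) k) :=
  Ideal.span ({F | ∃ f ∈ I, F = rename Sum.inl f} ∪
    Set.range fun i => X (Sum.inr i) ^ e i - rename Sum.inl (g i))

/-- Let `X ⊆ ℙ^n` be a projective scheme of dimension at most `m` over `k`, `m ≥ 1`, given by a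
homogeneous ideal `I`. There is a number `κ` such that the height of the tangent spaces of `X` is at
most `κ` times the height of the points (`CanonicalBound`). Let `d i, e i ≥ 1`, `i < q`, be integers
such that `δ := ∑ i, d i (1 - 1 / e i) > 2 m`. There is a countable subfield `k₁` of `k` with the
following property. Let `g i` be forms of degrees `d i` over `k` all of whose coefficients together
are algebraically independent over `k₁`, let `D i = X ∩ {g i = 0}`, and let `κ` be any rational
number with `CanonicalBound I m κ`.

(1) Let `x` be a nonconstant point of `X` over a function field `L` that has contact order `0` or at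
least `e i` with every `D i` (or is contained in it) at every place, and let `u` be a basis of the
tangent space at `x` of the cone over `X`. Then the degree of `K_X + ∑ i, (1 - 1 / e i) D i` on `x`,
that is, `h(u) - (m + 1) h(x) + δ h(x)`, is at most `factor m δ κ * (2 g(L) - 2)`. Such points are
the images of all the points over `L` of the schemes `S` with a finite morphism `π` to `X` that is
ramified to order at least `e i` over every `D i`; and `K_S = π^* (K_X + ∑ i, (1 - 1 / e i) D i)` if
`S` and `X` are smooth and the ramification is exactly of order `e i` over `D i` and trivial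
elsewhere.

(2) In particular suppose that `d i = e i` for all `i`, and let `S ⊆ ℙ^(n + q)` be the Kummer
covering `y i ^ e i = g i (x)` of `X`. Let `z` be a nonconstant point of `S` over a function field
`L` whose coordinates `y i` are not zero and `v` a basis of the tangent space at `z` of the cone
over `S`. Then the degree of `K_S` on `z`, that is, `h(v) - (m + 1) h(z)`, is at most
`factor m δ κ * (2 g(L) - 2)`. -/
theorem result (k : Type) [Field k] [IsAlgClosed k] [CharZero k] (n m : ℕ) (hm : 1 ≤ m)
    (I : Ideal (MvPolynomial (Fin (n + 1)) k)) (hI : ∀ f ∈ I, ∀ N, homogeneousComponent N f ∈ I)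
    (hX : Algebra.trdeg k (MvPolynomial (Fin (n + 1)) k ⧸ I) ≤ m + 1) :
    (∃ κ : ℕ, CanonicalBound I m κ) ∧
    ∀ (q : ℕ) (d e : Fin q → ℕ), (∀ i, 1 ≤ d i) → (∀ i, 1 ≤ e i) →
      (2 * m : ℚ) < ∑ i, (d i : ℚ) * (1 - 1 / e i) →
      ∃ k₁ : Subfield k, Countable k₁ ∧
      ∀ g : Fin q → MvPolynomial (Fin (n + 1)) k, (∀ i, (g i).IsHomogeneous (d i)) →
      AlgebraicIndependent k₁ (fun p : (i : Fin q) × {α : Fin (n + 1) →₀ ℕ // α.degree = d i} =>
        (g p.1).coeff p.2.1) →
      ∀ κ : ℚ, CanonicalBound I m κ →
        (∀ (L : Type) [Field L] [Algebra k L] [IsFF k L] (x : Fin (n + 1) → L),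
          Nonconstant k x → (∀ f ∈ I, aeval x f = 0) → HighContact d e g x →
          ∀ u : Fin (m + 1) → Fin (n + 1) → L, IsTangentBasis I x u →
            (spaceHeight k u : ℚ) - (m + 1) * height k x +
                (∑ i, (d i : ℚ) * (1 - 1 / e i)) * height k x ≤
              factor m (∑ i, (d i : ℚ) * (1 - 1 / e i)) κ * canonicalDegree k L) ∧
        ((∀ i, d i = e i) →
          ∀ (L : Type) [Field L] [Algebra k L] [IsFF k L] (z : Fin (n + 1) ⊕ Fin q → L),
            Nonconstant k z → (∀ F ∈ coverIdeal I e g, aeval z F = 0) →
            (∀ i, z (Sum.inr i) ≠ 0) →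
            ∀ v : Fin (m + 1) → Fin (n + 1) ⊕ Fin q → L, IsTangentBasis (coverIdeal I e g) z v →
              (spaceHeight k v : ℚ) - (m + 1) * height k z ≤
                factor m (∑ i, (d i : ℚ) * (1 - 1 / e i)) κ * canonicalDegree k L) := by
  have hcan : ∀ (L : Type) [Field L] [Algebra k L] [IsFF k L],
      canonicalDegree k L = Pool.Agent.W603.LV.canDeg k L := by
    intro L _ _ _
    have h : ∃ D : Derivation k L L, D ≠ 0 := Pool.Agent.W603.LV.exists_der
    unfold canonicalDegree
    rw [dif_pos h, Pool.Agent.W603.LV.canDeg_eq h.choose_spec]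
    rfl
  constructor
  · obtain ⟨κ, hκ⟩ := Pool.Agent.TH875.Vg.exists_kappa hI m
    refine ⟨κ, fun L _ _ _ x hx hxI u hu => ?_⟩
    obtain ⟨a, b, hb, -⟩ := hx
    have h1 := hκ L x ⟨b, hb⟩ hxI u hu.1 hu.2
    have h2 : ((spaceHeight k u : ℤ) : ℚ) ≤ ((κ * height k x : ℤ) : ℚ) := by exact_mod_cast h1
    push_cast at h2
    exact h2
  · intro q d e hd he hδ
    obtain ⟨k₁, hk₁, h1⟩ := Pool.Agent.TH875.Vg.final_W (k := k) hI hm hX hd he hδ
    refine ⟨k₁, hk₁, fun g hg hai κ hκ => ?_⟩
    have h2 := h1 g hg (hai.comp
      (fun p : (i : Fin q) × Pool.Agent.TH875.Vg.Expo n (d i) =>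
        (⟨p.1, ⟨p.2.1, (Pool.Agent.TH875.Vg.mem_expo p.2.1).1 p.2.2⟩⟩ :
          (i : Fin q) × {α : Fin (n + 1) →₀ ℕ // α.degree = d i})) (by
        rintro ⟨i, α⟩ ⟨j, β⟩ hab
        simp only [Sigma.mk.injEq] at hab
        obtain ⟨rfl, hab⟩ := hab
        rw [heq_eq_eq, Subtype.mk.injEq] at hab
        rw [Subtype.ext hab]))
    refine ⟨fun L _ _ _ x hx hxI hor u hu => ?_, fun hde L _ _ _ z hz hzJ hz0 v hv => ?_⟩
    · rw [hcan]
      exact h2 L x hx hxI hor κ u hu.1 hu.2 (hκ L x hx hxI u hu)
    · rw [hcan]
      obtain rfl : d = e := funext hde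
      exact Pool.Agent.TH875.Vg.kIdeal_final hzJ he hg hz hz0 hv.1 hv.2 fun hx hxI hor u hu huT =>
        h2 L _ hx hxI hor κ u hu huT (hκ L _ hx hxI u ⟨hu, huT⟩)

end Pool.Agent.Results.MP_79ab39_ag.VeryGeneralCovers
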